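import Pool.Agent.H84.KE.Pat
import Pool.Agent.H84.EM.Fin

/-!
MP_3b0ce5_lc (the K shortest graphs, random first coordinates): the mean of the running time.
-/

set_option autoImplicit false

namespace Pool.Agent.H84.KE

open Finset

open Pool.Agent.H92.SR hiding nb box card_box

open Pool.Agent.H92.SR.Tr

open Pool.Agent.H84.TS (nb nb_ne sum_le mix pt pt_inj sf_sq)

open Pool.Agent.H84.SM (radS dd lens len Deg indep loc awayI len_splitI length_le awayI_mix JJ card_JJ loc_sumI len_leL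
  mem_nb)

open Pool.Agent.H84.OS (meanW choose_pow4)

open Pool.Agent.H84.EM (clv mem_clv card_clv cla card_cla priv clE clE_card clE_mem clE_sqf dd_ltE bsz_leE)

variable {n : ℕ}

/-- bad at the level `m` -/
def BadKE (U : Finset (Fin n)) (K : ℕ) (F : Set (List (Fin n × Fin n))) (Y : Fin n → Fin n → ℕ) (D b m : ℕ) (x : Fin n → ℕ) : Prop :=
  ∃ (k : ℕ) (G : List (Fin n × Fin n)), ShortestK K F Y x G ∧ Deg D G ∧ (D + 1) ^ 2 * m ≤ (cla U Y x G).card ∧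
    |len Y x G - k| * 2 ^ (1 + b * 4 ^ (D * m + 1)) < 1

open Classical in
theorem one_setKE {D L m : ℕ} {A : Fin n → Finset ℕ} {w : Fin n → ℕ → ℝ} {θ : ℝ} (hθ : 0 ≤ θ)
    (hw0 : ∀ i, ∀ a ∈ A i, 0 ≤ w i a) (hw1 : ∀ i, ∑ a ∈ A i, w i a = 1)
    {U : Finset (Fin n)} (hwθ : ∀ i ∈ U, ∀ a ∈ A i, w i a ≤ θ)
    {Y : Fin n → Fin n → ℕ} (hY : ∀ i j, Y i j = Y j i)
    (hL : ∀ z ∈ Fintype.piFinset A, ∀ i j, √(dd Y z i j : ℝ) ≤ L)
    (K : ℕ) (F : Set (List (Fin n × Fin n))) {b : ℕ} (hb : 8 * ((n + 1) * (D + 1) * (L + 1)) ≤ 2 ^ b) :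
    ∑ x ∈ (Fintype.piFinset A).filter (fun x => BadKE U K F Y D b m x), ∏ i, w i (x i) ≤
      K * (2 ^ (D + 3) * (D + 1) * (n + 1) ^ (D + 1) * θ) ^ m := by
  obtain ⟨Q, hQ⟩ : ∃ Q : (I : Finset (Fin n)) → ({o // o ∈ I} → Fin D → Option (Fin n)) × Fin K → (Fin n → ℕ) → Prop,
      ∀ I f x, Q I f x ↔ ∃ (k : ℕ) (G : List (Fin n × Fin n)), ShortestK K F Y x G ∧ Deg D G ∧ (∀ o ∈ I, o ∈ U) ∧
      (rg F Y I x G).ncard = (f.2 : ℕ) ∧ (∀ o : {o // o ∈ I}, pt D (nb o.1 G) = f.1 o) ∧ (∀ o ∈ I, ∀ t ∈ nb o G, t ∉ I) ∧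
      (∀ o ∈ I, ∃ d ∈ clv Y x G o, ∀ o' ∈ I, o' ≠ o → d ∉ clv Y x G o') ∧
      |len Y x G - k| * 2 ^ (1 + b * 4 ^ (D * m + 1)) < 1 := ⟨_, fun _ _ _ => Iff.rfl⟩
  have hW : ∀ I ∈ (univ : Finset (Fin n)).powersetCard m, ∀ f,
      ∑ x ∈ (Fintype.piFinset A).filter (Q I f), ∏ i, w i (x i) ≤ (2 ^ (D + 1) * (D * m) * θ) ^ m := by
    intro I hI f
    have hI2 := (Finset.mem_powersetCard.1 hI).2
    refine meanW hw0 hw1 I (Q I f) fun x hx => ?_
    rcases ((Fintype.piFinset A).filter fun z => Q I f (mix I z x)).eq_empty_or_nonempty with he | ⟨z0, hz0⟩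
    · rw [he, Finset.sum_empty]
      positivity
    obtain ⟨k0, G0, hS0, hG0, hU0, hj0, hf0, hi0, hp0, hl0⟩ := (hQ _ _ _).1 (mem_filter.1 hz0).2
    have h2 := patKE (D := D) hθ hw0 hw1 hY hL hx I (fun i hi => hwθ i (hU0 i hi)) K (f.2 : ℕ) F (fun o => nb o G0) hb
      ((Fintype.piFinset A).filter fun z => Q I f (mix I z x)) (Finset.filter_subset _ _) (fun z hz => by
        obtain ⟨k, G, hS, hG, -, hj1, hf, hi, hp, hl⟩ := (hQ _ _ _).1 (mem_filter.1 hz).2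
        rw [rg_mix] at hj1
        refine ⟨k, G, hS, hG, hj1, fun o ho => ?_, hi, hp, by rw [hI2]; exact hl⟩
        exact pt_inj (hG.2 o) (hG0.2 o) ((hf ⟨o, ho⟩).trans (hf0 ⟨o, ho⟩).symm))
    rw [hI2] at h2
    exact h2
  have hWn : ∀ x ∈ Fintype.piFinset A, 0 ≤ ∏ i, w i (x i) := fun x hx =>
    Finset.prod_nonneg fun i _ => hw0 i _ (Fintype.mem_piFinset.1 hx i)
  have c1 := Pool.Agent.H41.RC.union_bound (Fintype.piFinset A)
    (((univ : Finset (Fin n)).powersetCard m).sigma fun I => (univ : Finset (({o // o ∈ I} → Fin D → Option (Fin n)) × Fin K)))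
    (fun x => BadKE U K F Y D b m x) (fun p => Q p.1 p.2) (fun x => ∏ i, w i (x i)) hWn (by
      intro x hx hbad
      obtain ⟨k, G, hS, hG, hO, hl⟩ := hbad
      obtain ⟨I, hI2, hI5, hI3, hI4⟩ := priv hG hO
      refine ⟨⟨I, (fun o => pt D (nb o.1 G), ⟨_, (rg_fin hY hI3 hS).2⟩)⟩, Finset.mem_sigma.2
        ⟨Finset.mem_powersetCard.2 ⟨Finset.subset_univ _, hI2⟩, mem_univ _⟩, ?_⟩
      rw [hQ]
      exact ⟨k, G, hS, hG, hI5, rfl, fun o => rfl, hI3, hI4, hl⟩)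
  rw [Finset.sum_sigma] at c1
  calc ∑ x ∈ (Fintype.piFinset A).filter (fun x => BadKE U K F Y D b m x), ∏ i, w i (x i) ≤
        ∑ I ∈ (univ : Finset (Fin n)).powersetCard m, ∑ f : ({o // o ∈ I} → Fin D → Option (Fin n)) × Fin K,
          ∑ x ∈ (Fintype.piFinset A).filter (Q I f), ∏ i, w i (x i) := c1
    _ ≤ ∑ I ∈ (univ : Finset (Fin n)).powersetCard m, ∑ _f : ({o // o ∈ I} → Fin D → Option (Fin n)) × Fin K,
          ((2 : ℝ) ^ (D + 1) * (D * m) * θ) ^ m :=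
        Finset.sum_le_sum fun I hI => Finset.sum_le_sum fun f _ => hW I hI f
    _ = ∑ I ∈ (univ : Finset (Fin n)).powersetCard m, ((((n + 1) ^ D) ^ m * K : ℕ) : ℝ) *
          ((2 : ℝ) ^ (D + 1) * (D * m) * θ) ^ m := by
        refine Finset.sum_congr rfl fun I hI => ?_
        rw [Finset.sum_const, nsmul_eq_mul, Finset.card_univ]
        congr 2
        rw [Fintype.card_prod, Fintype.card_fun, Fintype.card_fun, Fintype.card_option, Fintype.card_fin, Fintype.card_fin,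
          Fintype.card_fin, Fintype.card_coe, (Finset.mem_powersetCard.1 hI).2]
    _ = (n.choose m : ℝ) * (((((n + 1) ^ D) ^ m * K : ℕ) : ℝ) * ((2 : ℝ) ^ (D + 1) * (D * m) * θ) ^ m) := by
        rw [Finset.sum_const, nsmul_eq_mul, Finset.card_powersetCard, Finset.card_univ, Fintype.card_fin]
    _ = ((n.choose m * m ^ m : ℕ) : ℝ) * (((((n + 1) ^ D) ^ m * K : ℕ) : ℝ) * ((2 : ℝ) ^ (D + 1) * D * θ) ^ m) := by
        have e : ((2 : ℝ) ^ (D + 1) * (D * m) * θ) ^ m = (m : ℝ) ^ m * ((2 : ℝ) ^ (D + 1) * D * θ) ^ m := by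
          rw [← mul_pow]
          congr 1
          ring
        rw [e]
        push_cast
        generalize ((2 : ℝ) ^ (D + 1) * D * θ) ^ m = u, (((n : ℝ) + 1) ^ D) ^ m = v
        ring
    _ ≤ (((4 * (n + 1)) ^ m : ℕ) : ℝ) * (((((n + 1) ^ D) ^ m * K : ℕ) : ℝ) * ((2 : ℝ) ^ (D + 1) * D * θ) ^ m) := by
        refine mul_le_mul_of_nonneg_right ?_ (by positivity)
        exact_mod_cast choose_pow4 n m
    _ = K * (4 * (n + 1) * ((n + 1) ^ D * ((2 : ℝ) ^ (D + 1) * D * θ))) ^ m := by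
        push_cast
        rw [mul_pow (4 * ((n : ℝ) + 1)), mul_pow (((n : ℝ) + 1) ^ D)]
        generalize (4 * ((n : ℝ) + 1)) ^ m = u, (((n : ℝ) + 1) ^ D) ^ m = v, ((2 : ℝ) ^ (D + 1) * D * θ) ^ m = t
        ring
    _ ≤ K * (2 ^ (D + 3) * (D + 1) * (n + 1) ^ (D + 1) * θ) ^ m := by
        refine mul_le_mul_of_nonneg_left (pow_le_pow_left₀ (by positivity) ?_ m) (Nat.cast_nonneg _)
        have e1 : (4 : ℝ) * (n + 1) * ((n + 1) ^ D * ((2 : ℝ) ^ (D + 1) * D * θ)) =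
            2 ^ (D + 3) * D * (n + 1) ^ (D + 1) * θ := by
          rw [pow_succ ((n : ℝ) + 1) D, pow_succ (2 : ℝ) (D + 2), pow_succ (2 : ℝ) (D + 1)]
          ring
        rw [e1]
        have e2 : (2 : ℝ) ^ (D + 3) * (D + 1) * (n + 1) ^ (D + 1) * θ =
            2 ^ (D + 3) * D * (n + 1) ^ (D + 1) * θ + 2 ^ (D + 3) * (n + 1) ^ (D + 1) * θ := by ring
        rw [e2]
        have : (0 : ℝ) ≤ 2 ^ (D + 3) * (n + 1) ^ (D + 1) * θ := by positivity
        linarith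

open Classical in
theorem mainKE : ∃ (c : Prog) (T : List ℕ → ℕ → ℕ),
    (∀ (L : List ℕ) (k : ℕ),
      Eval c (encI L k) (bit (decide ((L.map fun a : ℕ => √(a : ℝ)).sum ≤ k))) (T L k)) ∧
    ∀ D : ℕ, ∃ (C Λ : ℕ) (q : Polynomial ℕ), 1 ≤ C ∧ 1 ≤ Λ ∧
      ∀ (n s ρ K : ℕ) (A : Fin n → Finset ℕ) (w : Fin n → ℕ → ℝ) (Y : Fin n → Fin n → ℕ) (θ : ℝ),
      (∀ i, ∀ a ∈ A i, Nat.size a ≤ s ∧ 0 ≤ w i a) → (∀ i, ∑ a ∈ A i, w i a = 1) → 0 ≤ θ →
      (Finset.univ.filter fun i => ∃ a ∈ A i, θ < w i a).card ≤ ρ →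
      (∀ i j, Y i j = Y j i) → (∀ i j, Nat.size (Y i j) ≤ s) → ∀ F : Set (List (Fin n × Fin n)),
      (∀ m : ℕ, ∑ x ∈ (Fintype.piFinset A).filter (fun x => ∃ (G : List (Fin n × Fin n)) (k : ℕ), ShortestK K F Y x G ∧
          Deg D G ∧ q.eval (n + s + Nat.size k) * Λ ^ (m + ρ) < T (lens Y x G) k),
        ∏ i, w i (x i) ≤ K * (C * (n + 1) ^ (D + 1) * θ) ^ m) ∧
      (2 * Λ * C * (n + 1) ^ (D + 1) * θ ≤ 1 →
        ∀ (B : ℕ) (g : (Fin n → ℕ) → List (Fin n × Fin n)) (k : (Fin n → ℕ) → ℕ),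
        (∀ x ∈ Fintype.piFinset A, ShortestK K F Y x (g x) ∧ Deg D (g x) ∧ Nat.size (k x) ≤ B) →
        ∑ x ∈ Fintype.piFinset A, (∏ i, w i (x i)) * (T (lens Y x (g x)) (k x) : ℝ) ≤
          ((K * q.eval (n + s + B) * Λ ^ ρ : ℕ) : ℝ)) := by
  obtain ⟨c, T, q, Λ0, hΛ0, hE, hT, hT2⟩ := Pool.Agent.H84.OB.timD
  refine ⟨c, T, fun L k => ?_, fun D => ?_⟩
  · have e : decide ((L.map fun a : ℕ => √(a : ℝ)).sum ≤ k) = decide (EE L k ≤ 0) := by
      apply decide_eq_decide.2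
      unfold EE
      rw [sub_nonpos]
    rw [e]
    exact hE L k
  obtain ⟨Λ, hΛ⟩ : ∃ Λ, Λ = Λ0 ^ ((D + 1) ^ 2) := ⟨_, rfl⟩
  have hΛ1 : 1 ≤ Λ := by
    rw [hΛ]
    exact Nat.one_le_pow _ _ hΛ0
  have hΛR : (1 : ℝ) ≤ Λ := by exact_mod_cast hΛ1
  obtain ⟨qq, hqq⟩ : ∃ qq : Polynomial ℕ, ∀ y, qq.eval y = q.eval ((4 * D + 8) * (y + 1) ^ 2) * Λ0 ^ 2 := by
    refine ⟨q.comp (Polynomial.C (4 * D + 8) * (Polynomial.X + 1) ^ 2) * Polynomial.C (Λ0 ^ 2), fun y => ?_⟩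
    rw [Polynomial.eval_mul, Polynomial.eval_comp, Polynomial.eval_mul, Polynomial.eval_C, Polynomial.eval_C,
      Polynomial.eval_pow, Polynomial.eval_add, Polynomial.eval_X, Polynomial.eval_one]
  have hev2 : ∀ y, (qq * Polynomial.C (1 + 3 * Λ)).eval y = qq.eval y * (1 + 3 * Λ) := fun y => by
    rw [Polynomial.eval_mul, Polynomial.eval_C]
  refine ⟨2 ^ (D + 3) * (D + 1), Λ, qq * Polynomial.C (1 + 3 * Λ), Nat.one_le_iff_ne_zero.2 (by positivity), hΛ1,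
    fun n s ρ K A w Y θ hA hw1 hθ hρ hY hYs F => ?_⟩
  obtain ⟨U, hU⟩ : ∃ U, U = univ \ (Finset.univ.filter fun i => ∃ a ∈ A i, θ < w i a) := ⟨_, rfl⟩
  have hUc : (univ \ U).card ≤ ρ := by
    rw [hU, Finset.sdiff_sdiff_eq_self (Finset.subset_univ _)]
    exact hρ
  have hwθ : ∀ i ∈ U, ∀ a ∈ A i, w i a ≤ θ := by
    intro i hi a ha
    rw [hU, mem_sdiff, mem_filter, not_and] at hi
    have h1 := hi.2 (mem_univ i)
    push Not at h1
    exact h1 a ha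
  have hxs : ∀ x ∈ Fintype.piFinset A, ∀ i, Nat.size (x i) ≤ s := fun x hx i =>
    (hA i _ (Fintype.mem_piFinset.1 hx i)).1
  obtain ⟨L, hL⟩ : ∃ L, L = 2 ^ (s + 1) := ⟨_, rfl⟩
  have hLb : ∀ z ∈ Fintype.piFinset A, ∀ i j, √(dd Y z i j : ℝ) ≤ (L : ℕ) := by
    intro z hz i j
    rw [Real.sqrt_le_left (Nat.cast_nonneg _)]
    have h2 := dd_ltE hYs (hxs z hz) i j
    have h3 : dd Y z i j ≤ L ^ 2 := by
      refine h2.le.trans ?_
      rw [hL, ← pow_mul]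
      exact Nat.pow_le_pow_right (by norm_num) (by omega)
    exact_mod_cast h3
  obtain ⟨b, hb⟩ : ∃ b, b = n + D + s + 5 := ⟨_, rfl⟩
  have hb2 : 8 * ((n + 1) * (D + 1) * (L + 1)) ≤ 2 ^ b := by
    have a1 : n + 1 ≤ 2 ^ n := Nat.lt_two_pow_self
    have a2 : D + 1 ≤ 2 ^ D := Nat.lt_two_pow_self
    have a3 : L + 1 ≤ 2 ^ (s + 2) := by
      rw [hL, pow_succ 2 (s + 1)]
      have := Nat.one_le_two_pow (n := s + 1)
      omega
    calc 8 * ((n + 1) * (D + 1) * (L + 1)) ≤ 8 * (2 ^ n * 2 ^ D * 2 ^ (s + 2)) :=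
          Nat.mul_le_mul_left _ (Nat.mul_le_mul (Nat.mul_le_mul a1 a2) a3)
      _ = 2 ^ b := by
          rw [hb, show n + D + s + 5 = n + D + (s + 2) + 3 by ring, pow_add, pow_add, pow_add]
          ring
  have hcl : ∀ x ∈ Fintype.piFinset A, ∀ (G : List (Fin n × Fin n)) (k m : ℕ), Deg D G →
      ((cla U Y x G).card ≤ (D + 1) ^ 2 * m ∨ 1 ≤ |len Y x G - (k : ℕ)| * 2 ^ (1 + b * 4 ^ (D * m + 1))) →
      T (lens Y x G) k ≤ qq.eval (n + s + Nat.size k) * Λ ^ (m + ρ) := by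
    intro x hx G k m hG hm
    obtain ⟨κ, hκ⟩ : ∃ κ, κ = Nat.size k := ⟨_, rfl⟩
    obtain ⟨P, hP⟩ : ∃ P, P = (4 * D + 8) * (n + s + κ + 1) ^ 2 := ⟨_, rfl⟩
    have hsz : bsz (lens Y x G) k + (b + κ) ≤ P := by
      have h3 := bsz_leE hYs (hxs x hx) hG k
      rw [← hκ] at h3
      have a1 : n * (s + 1) ≤ (n + s + κ + 1) ^ 2 := by nlinarith [Nat.zero_le (n * κ), Nat.zero_le (s * κ)]
      have a2 : n + s + κ + 1 ≤ (n + s + κ + 1) ^ 2 := by nlinarith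
      have a3 : 1 ≤ (n + s + κ + 1) ^ 2 := by nlinarith
      have a4 : n * D * (2 * s + 2) = 2 * D * (n * (s + 1)) := by ring
      have a5 : 2 * D * (n * (s + 1)) ≤ 2 * D * (n + s + κ + 1) ^ 2 := Nat.mul_le_mul_left _ a1
      have a6 : (D + 5) * 1 ≤ (D + 5) * (n + s + κ + 1) ^ 2 := Nat.mul_le_mul_left _ a3
      have a7 : 2 * (n + s + κ + 1) ≤ 2 * (n + s + κ + 1) ^ 2 := Nat.mul_le_mul_left _ a2
      have a8 : P = 2 * D * (n + s + κ + 1) ^ 2 + (D + 5) * (n + s + κ + 1) ^ 2 + 2 * (n + s + κ + 1) ^ 2 +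
          (D + 1) * (n + s + κ + 1) ^ 2 := by rw [hP]; ring
      omega
    have hTb : T (lens Y x G) k ≤ q.eval P * Λ0 ^ (2 + (D + 1) ^ 2 * (m + ρ)) := by
      rcases hm with hm | hm
      · have h2 := hT2 (lens Y x G) k (b + κ) (clE Y x G) (clE_mem _ _ _) (mem_insert_self _ _) (clE_sqf _ _ _) (by
          have a1 := len_leL (hLb x hx) G
          have a2 : (G.length : ℝ) ≤ n * D := by exact_mod_cast length_le hG
          have a3 : (0 : ℝ) ≤ (L : ℕ) := Nat.cast_nonneg _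
          have a4 : len Y x G ≤ n * D * (L : ℕ) := a1.trans (mul_le_mul_of_nonneg_right a2 a3)
          have hbb : (2 : ℝ) ^ b ≤ 2 ^ (b + κ) := pow_le_pow_right₀ (by norm_num) (Nat.le_add_right _ _)
          have a5 : (8 : ℝ) * ((n + 1) * (D + 1) * ((L : ℕ) + 1)) ≤ 2 ^ b := by exact_mod_cast hb2
          have a6 : (8 : ℝ) * (k : ℕ) ≤ 2 ^ (b + κ) := by
            have h5 : 8 * k ≤ 2 ^ (b + κ) := by
              calc 8 * k ≤ 2 ^ 3 * 2 ^ κ := by
                    refine Nat.mul_le_mul (by norm_num) ?_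
                    rw [hκ]
                    exact (Nat.lt_size_self _).le
                _ = 2 ^ (3 + κ) := (pow_add _ _ _).symm
                _ ≤ 2 ^ (b + κ) := Nat.pow_le_pow_right (by norm_num) (by omega)
            exact_mod_cast h5
          have a7 : ((lens Y x G).map fun a : ℕ => √(a : ℝ)).sum = len Y x G := rfl
          rw [a7]
          have b1 : (0 : ℝ) ≤ n := Nat.cast_nonneg _
          have b2 : (0 : ℝ) ≤ D := Nat.cast_nonneg _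
          have b3 : (0 : ℝ) ≤ n * D := by positivity
          have b4 : (0 : ℝ) ≤ n * (L : ℕ) := by positivity
          have b5 : (0 : ℝ) ≤ D * (L : ℕ) := by positivity
          have b6 : (0 : ℝ) ≤ n * D * (L : ℕ) := by positivity
          nlinarith)
        have h3 := clE_card hUc Y x hG
        have h4 : (D + 1) ^ 2 * (m + ρ) = (D + 1) ^ 2 * m + D * ρ + (D ^ 2 + D + 1) * ρ := by ring
        exact h2.trans (Nat.mul_le_mul (poly_mono q hsz) (Nat.pow_le_pow_right hΛ0 (by omega)))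
      · have hsep : 1 ≤ |EE (lens Y x G) k| * 2 ^ (1 + b * 4 ^ (D * m + 1)) := hm
        have h4 : (D + 1) ^ 2 * (m + ρ) = D * m + (D ^ 2 + D + 1) * m + (D + 1) ^ 2 * ρ := by ring
        exact (hT _ _ b (D * m + 1) hsep).trans
          (Nat.mul_le_mul (poly_mono q (by omega)) (Nat.pow_le_pow_right hΛ0 (by omega)))
    rw [← hκ, hqq, ← hP]
    refine hTb.trans (le_of_eq ?_)
    rw [pow_add, hΛ, ← pow_mul, mul_assoc]
  have hnb : ∀ x ∈ Fintype.piFinset A, ∀ (G : List (Fin n × Fin n)) (k m : ℕ), ShortestK K F Y x G → Deg D G →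
      ¬ BadKE U K F Y D b m x → T (lens Y x G) k ≤ qq.eval (n + s + Nat.size k) * Λ ^ (m + ρ) := by
    intro x hx G k m hS hG hbad
    refine hcl x hx G k m hG ?_
    by_contra hcon
    rw [not_or, not_le, not_le] at hcon
    exact hbad ⟨k, G, hS, hG, hcon.1.le, hcon.2⟩
  have hWn : ∀ x ∈ Fintype.piFinset A, 0 ≤ ∏ i, w i (x i) := fun x hx =>
    Finset.prod_nonneg fun i _ => (hA i _ (Fintype.mem_piFinset.1 hx i)).2
  have hW1 : ∑ x ∈ Fintype.piFinset A, ∏ i, w i (x i) = 1 := by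
    rw [← Finset.prod_univ_sum, Finset.prod_congr rfl fun i _ => hw1 i]
    simp
  have hone : ∀ m, ∑ x ∈ (Fintype.piFinset A).filter (fun x => BadKE U K F Y D b m x), ∏ i, w i (x i) ≤
      K * (((2 ^ (D + 3) * (D + 1) : ℕ) : ℝ) * (n + 1) ^ (D + 1) * θ) ^ m := fun m => by
    have h1 := one_setKE (m := m) hθ (fun i a ha => (hA i a ha).2) hw1 hwθ hY hLb K F hb2
    push_cast
    exact h1
  refine ⟨fun m => ?_, fun hθΛ B g k hg => ?_⟩
  · refine le_trans ?_ (hone m)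
    refine Finset.sum_le_sum_of_subset_of_nonneg ?_ fun x hx _ => hWn x (mem_filter.1 hx).1
    intro x hx
    obtain ⟨hx1, G, k, hS, hG, hlt⟩ := mem_filter.1 hx
    refine mem_filter.2 ⟨hx1, ?_⟩
    by_contra hbad
    have h1 := hnb x hx1 G k m hS hG hbad
    have h2 : qq.eval (n + s + Nat.size k) * Λ ^ (m + ρ) ≤
        (qq * Polynomial.C (1 + 3 * Λ)).eval (n + s + Nat.size k) * Λ ^ (m + ρ) := by
      rw [hev2]
      exact Nat.mul_le_mul_right _ (Nat.le_mul_of_pos_right _ (by omega))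
    omega
  · have hmono : ∀ x ∈ Fintype.piFinset A, qq.eval (n + s + Nat.size (k x)) ≤ qq.eval (n + s + B) :=
      fun x hx => poly_mono qq (by have := (hg x hx).2.2; omega)
    have hK1 : (1 : ℝ) ≤ K := by
      have hne : (Fintype.piFinset A).Nonempty := by
        rw [Finset.nonempty_iff_ne_empty]
        intro h0
        rw [h0, Finset.sum_empty] at hW1
        exact zero_ne_one hW1
      obtain ⟨x, hx⟩ := hne
      obtain ⟨-, S, hS, -⟩ := (hg x hx).1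
      have : 1 ≤ K := by omega
      exact_mod_cast this
    obtain ⟨η, hη⟩ : ∃ η : ℝ, η = ((2 ^ (D + 3) * (D + 1) : ℕ) : ℝ) * (n + 1) ^ (D + 1) * θ := ⟨_, rfl⟩
    have hη0 : 0 ≤ η := by
      rw [hη]
      positivity
    have key := Pool.Agent.H41.RC.avgW (Fintype.piFinset A) (fun x => ∏ i, w i (x i))
      (fun x => (T (lens Y x (g x)) (k x) : ℝ)) (fun m x => BadKE U K F Y D b m x)
      (Q := ((qq.eval (n + s + B) * Λ ^ ρ : ℕ) : ℝ)) (L := (Λ : ℝ)) (Nat.cast_nonneg _) hΛR hWn hW1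
      (M := n) (p := fun m => K * η ^ m) ?_ ?_ ?_
    · have hgeo := Pool.Agent.H41.RC.geo (L := (Λ : ℝ)) (θ := η) hΛR hη0
        (by rw [hη]; linarith) n
      have hgeo2 : 1 + ∑ m ∈ Finset.range n, (Λ : ℝ) ^ (m + 1) * (K * η ^ m) + (Λ : ℝ) ^ n * (K * η ^ n) ≤
          K * (1 + 3 * Λ) := by
        have e1 : ∑ m ∈ Finset.range n, (Λ : ℝ) ^ (m + 1) * (K * η ^ m) =
            K * ∑ m ∈ Finset.range n, (Λ : ℝ) ^ (m + 1) * η ^ m := by
          rw [Finset.mul_sum]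
          exact Finset.sum_congr rfl fun m _ => by ring
        rw [e1]
        have h0 : (0 : ℝ) ≤ K := Nat.cast_nonneg _
        have h1 := mul_le_mul_of_nonneg_left hgeo h0
        linarith
      refine (key.trans (mul_le_mul_of_nonneg_left hgeo2 (Nat.cast_nonneg _))).trans (le_of_eq ?_)
      rw [hev2]
      push_cast
      ring
    · intro x hx m _ hbad
      obtain ⟨hS, hG, -⟩ := hg x hx
      have h1 : T (lens Y x (g x)) (k x) ≤ qq.eval (n + s + B) * Λ ^ ρ * Λ ^ m := by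
        refine (hnb x hx (g x) (k x) m hS hG hbad).trans ?_
        rw [pow_add, mul_assoc (qq.eval (n + s + B)), mul_comm (Λ ^ ρ)]
        exact Nat.mul_le_mul_right _ (hmono x hx)
      exact_mod_cast h1
    · intro x hx
      obtain ⟨hS, hG, -⟩ := hg x hx
      have h1 : T (lens Y x (g x)) (k x) ≤ qq.eval (n + s + B) * Λ ^ ρ * Λ ^ n := by
        refine (hcl x hx (g x) (k x) n hG (Or.inl ?_)).trans ?_
        · have h1 := card_cla U Y x hG
          have h2 := Finset.card_le_univ U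
          rw [Fintype.card_fin] at h2
          have h3 := Nat.mul_le_mul_left D h2
          nlinarith [Nat.zero_le (D * n), Nat.zero_le (D * D * n)]
        · rw [pow_add, mul_assoc (qq.eval (n + s + B)), mul_comm (Λ ^ ρ)]
          exact Nat.mul_le_mul_right _ (hmono x hx)
      exact_mod_cast h1
    · intro m _
      rw [hη]
      exact hone m

end Pool.Agent.H84.KE
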