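import Pool.Agent.H84.EM.Pat

/-!
MP_3b0ce5_lc (the K shortest graphs, random first coordinates): definitions, the rank outside a set of vertices, and the bad
positions of a set of vertices for a fixed pattern of neighbours and a fixed rank.
-/

set_option autoImplicit false

namespace Pool.Agent.H84.KE

open Finset

open Pool.Agent.H92.SR hiding nb

open Pool.Agent.H84.TS (nb nb_ne sum_le mix pt pt_inj sf_sq)

open Pool.Agent.H84.SM (radS dd lens len Deg indep loc awayI len_splitI length_le awayI_mix JJ card_JJ loc_sumI len_leL)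

open Pool.Agent.H84.EM (two_vals cls_part clv mem_clv card_clv cla card_cla priv)

variable {n : ℕ}

/-- `G` is one of the `K` shortest members of the family `F`: the smaller lengths of members of `F` are fewer than `K` numbers -/
def ShortestK (K : ℕ) (F : Set (List (Fin n × Fin n))) (Y : Fin n → Fin n → ℕ) (x : Fin n → ℕ)
    (G : List (Fin n × Fin n)) : Prop :=
  G ∈ F ∧ ∃ S : Finset ℝ, S.card < K ∧ ∀ G' ∈ F, len Y x G' < len Y x G → len Y x G' ∈ S

/-- the smaller lengths away from `I` of the members of `F` with the same neighbours on `I` -/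
def rg (F : Set (List (Fin n × Fin n))) (Y : Fin n → Fin n → ℕ) (I : Finset (Fin n)) (x : Fin n → ℕ)
    (G : List (Fin n × Fin n)) : Set ℝ :=
  {v | ∃ G' ∈ F, (∀ o ∈ I, nb o G' = nb o G) ∧ len Y x (awayI I G') = v ∧ v < len Y x (awayI I G)}

theorem rg_mix (F : Set (List (Fin n × Fin n))) (Y : Fin n → Fin n → ℕ) (I : Finset (Fin n)) (z x : Fin n → ℕ)
    (G : List (Fin n × Fin n)) : rg F Y I (mix I z x) G = rg F Y I x G := by
  unfold rg
  simp only [awayI_mix]

theorem rg_fin {K : ℕ} {F : Set (List (Fin n × Fin n))} {Y : Fin n → Fin n → ℕ} (hY : ∀ i j, Y i j = Y j i)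
    {I : Finset (Fin n)} {x : Fin n → ℕ} {G : List (Fin n × Fin n)} (hI : ∀ o ∈ I, ∀ t ∈ nb o G, t ∉ I)
    (h : ShortestK K F Y x G) : (rg F Y I x G).Finite ∧ (rg F Y I x G).ncard < K := by
  classical
  obtain ⟨-, S, hS, hb⟩ := h
  obtain ⟨e, he⟩ : ∃ e, e = ∑ o ∈ I, loc Y x o (nb o G) := ⟨_, rfl⟩
  have hv : ∀ G' : List (Fin n × Fin n), (∀ o ∈ I, nb o G' = nb o G) → len Y x G' = e + len Y x (awayI I G') := by
    intro G' hG'
    rw [len_splitI hY x I G' (fun o ho t ht => hI o ho t (by rw [← hG' o ho]; exact ht)), he]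
    congr 1
    exact Finset.sum_congr rfl fun o ho => by rw [hG' o ho]
  have hsub : rg F Y I x G ⊆ ((S.image fun v => v - e : Finset ℝ) : Set ℝ) := by
    rintro v ⟨G', hG'F, hG'I, hv1, hv2⟩
    have h1 := hb G' hG'F (by
      rw [hv G' hG'I, hv G (fun _ _ => rfl), hv1]
      linarith)
    rw [Finset.mem_coe, mem_image]
    refine ⟨len Y x G', h1, ?_⟩
    rw [hv G' hG'I, hv1]
    ring
  have hfin := (Finset.finite_toSet (S.image fun v => v - e)).subset hsub
  refine ⟨hfin, ?_⟩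
  have h2 := Set.ncard_le_ncard hsub (Finset.finite_toSet _)
  rw [Set.ncard_coe_finset] at h2
  exact (h2.trans Finset.card_image_le).trans_lt hS

theorem rg_eq {F : Set (List (Fin n × Fin n))} {Y : Fin n → Fin n → ℕ} {I : Finset (Fin n)} {x : Fin n → ℕ}
    {G G0 : List (Fin n × Fin n)} (hG : G ∈ F) (hG0 : G0 ∈ F)
    (hI : ∀ o ∈ I, nb o G = nb o G0) (h1 : (rg F Y I x G).Finite) (h0 : (rg F Y I x G0).Finite)
    (h : (rg F Y I x G).ncard = (rg F Y I x G0).ncard) : len Y x (awayI I G) = len Y x (awayI I G0) := by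
  have key : ∀ a b : List (Fin n × Fin n), a ∈ F → (∀ o ∈ I, nb o a = nb o b) → (rg F Y I x b).Finite →
      len Y x (awayI I a) < len Y x (awayI I b) → (rg F Y I x a).ncard < (rg F Y I x b).ncard := by
    intro a b ha hab hb hlt
    refine Set.ncard_lt_ncard ?_ hb
    rw [Set.ssubset_iff_of_subset]
    · exact ⟨len Y x (awayI I a), ⟨a, ha, hab, rfl, hlt⟩, fun ⟨_, _, _, _, h2⟩ => lt_irrefl _ h2⟩
    · rintro v ⟨G', hG'F, hG'I, hv1, hv2⟩
      exact ⟨G', hG'F, fun o ho => (hG'I o ho).trans (hab o ho), hv1, hv2.trans hlt⟩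
  rcases lt_trichotomy (len Y x (awayI I G)) (len Y x (awayI I G0)) with h2 | h2 | h2
  · have := key G G0 hG hI h0 h2
    omega
  · exact h2
  · have := key G0 G hG0 (fun o ho => (hI o ho).symm) h1 h2
    omega

theorem patKE {D L : ℕ} {A : Fin n → Finset ℕ} {w : Fin n → ℕ → ℝ} {θ : ℝ} (hθ : 0 ≤ θ)
    (hw0 : ∀ i, ∀ a ∈ A i, 0 ≤ w i a) (hw1 : ∀ i, ∑ a ∈ A i, w i a = 1)
    {Y : Fin n → Fin n → ℕ} (hY : ∀ i j, Y i j = Y j i)
    (hL : ∀ z ∈ Fintype.piFinset A, ∀ i j, √(dd Y z i j : ℝ) ≤ L) {x : Fin n → ℕ}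
    (hx : x ∈ Fintype.piFinset A) (I : Finset (Fin n)) (hwθ : ∀ i ∈ I, ∀ a ∈ A i, w i a ≤ θ) (K j : ℕ) (F : Set (List (Fin n × Fin n))) (ν : Fin n → List (Fin n)) {b : ℕ}
    (hb : 8 * ((n + 1) * (D + 1) * (L + 1)) ≤ 2 ^ b) (V : Finset (Fin n → ℕ)) (hV : V ⊆ Fintype.piFinset A)
    (hbad : ∀ z ∈ V, ∃ (k : ℕ) (G : List (Fin n × Fin n)), ShortestK K F Y (mix I z x) G ∧ Deg D G ∧ (rg F Y I x G).ncard = j ∧
      (∀ o ∈ I, nb o G = ν o) ∧ (∀ o ∈ I, ∀ t ∈ nb o G, t ∉ I) ∧
      (∀ o ∈ I, ∃ d ∈ clv Y (mix I z x) G o, ∀ o' ∈ I, o' ≠ o → d ∉ clv Y (mix I z x) G o') ∧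
      |len Y (mix I z x) G - k| * 2 ^ (1 + b * 4 ^ (D * I.card + 1)) < 1) :
    ∑ z ∈ V, ∏ i, w i (z i) ≤ (2 ^ (D + 1) * (D * I.card) * θ) ^ I.card := by
  classical
  rcases V.eq_empty_or_nonempty with hVe | ⟨z0, hz0⟩
  · rw [hVe, Finset.sum_empty]
    positivity
  obtain ⟨k0, G0, hS0, hG0, hj0, hν0, hi0, -, hl0⟩ := hbad z0 hz0
  have hνI : ∀ o ∈ I, ∀ t ∈ ν o, t ∉ I := fun o ho t ht => hi0 o ho t (by rw [hν0 o ho]; exact ht)
  have hνD : ∀ o ∈ I, (ν o).length ≤ D := fun o ho => by rw [← hν0 o ho]; exact hG0.2 o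
  have hcard := card_JJ hνD
  have hup : ∀ z ∈ V, mix I z x ∈ Fintype.piFinset A := by
    intro z hz
    have h1 := Fintype.mem_piFinset.1 (hV hz)
    have h2 := Fintype.mem_piFinset.1 hx
    rw [Fintype.mem_piFinset]
    intro i
    unfold mix
    split_ifs
    · exact h1 i
    · exact h2 i
  -- the constants
  obtain ⟨A0, hA0⟩ : ∃ A0 : ((o : {o // o ∈ I}) × Fin (ν o.1).length) → ℕ,
      A0 = fun p => dd Y (mix I z0 x) p.1.1 (ν p.1.1)[p.2.1] := ⟨_, rfl⟩
  obtain ⟨cst, hcst⟩ : ∃ cst : ((o : {o // o ∈ I}) × Fin (ν o.1).length) → ℝ,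
      cst = fun p => ∑ p', (if sf (A0 p') = sf (A0 p) then √(A0 p' : ℝ) else 0) := ⟨_, rfl⟩
  have key : ∀ z ∈ V, ∀ o ∈ I, ∃ (S : Finset (Fin (ν o).length)) (p : (o : {o // o ∈ I}) × Fin (ν o.1).length),
      (∃ i ∈ S, Y o (ν o)[i] ≠ 0) ∧ ∑ i ∈ S, √(radS (z o) (x (ν o)[i]) (Y o (ν o)[i]) : ℝ) = cst p := by
    intro z hz o ho
    obtain ⟨k, G, hS, hG, hj1, hν, hi, hpr, hl⟩ := hbad z hz
    have e1 := len_splitI hY (mix I z x) I G hi
    have e2 := len_splitI hY (mix I z0 x) I G0 hi0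
    rw [Finset.sum_congr rfl fun o ho => by rw [hν o ho], awayI_mix] at e1
    rw [Finset.sum_congr rfl fun o ho => by rw [hν0 o ho], awayI_mix] at e2
    have hR : len Y x (awayI I G) = len Y x (awayI I G0) := by
      have f1 := rg_fin hY hi hS
      have f0 := rg_fin hY hi0 hS0
      rw [rg_mix] at f1 f0
      exact rg_eq hS.1 hS0.1 (fun o ho => (hν o ho).trans (hν0 o ho).symm) f1.1 f0.1 (hj1.trans hj0.symm)
    set E := 4 ^ (D * I.card + 1) with hE
    have hpow : (2 : ℝ) ^ (1 + b * E) = 2 * (2 ^ b) ^ E := by rw [pow_add, pow_one, pow_mul]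
    have hB1 : (1 : ℝ) ≤ 2 ^ b := one_le_pow₀ (by norm_num)
    have hB0 : (0 : ℝ) < 2 * (2 ^ b) ^ E := by positivity
    have hB2 : (1 : ℝ) ≤ 2 * (2 ^ b) ^ E := by
      have := one_le_pow₀ (n := E) hB1
      linarith
    rw [hpow] at hl hl0
    have hu1 : |len Y (mix I z x) G - k| < 1 := by
      by_contra hcon
      rw [not_lt] at hcon
      have := mul_le_mul hcon hB2 zero_le_one (abs_nonneg _)
      linarith
    have hu2 : |len Y (mix I z0 x) G0 - k0| < 1 := by
      by_contra hcon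
      rw [not_lt] at hcon
      have := mul_le_mul hcon hB2 zero_le_one (abs_nonneg _)
      linarith
    have hL0 : (0 : ℝ) ≤ L := Nat.cast_nonneg _
    have hlenb : ∀ z ∈ V, ∀ G, Deg D G → len Y (mix I z x) G ≤ n * D * L := by
      intro z hz G hG
      have a1 := len_leL (hL _ (hup z hz)) G
      have a2 : (G.length : ℝ) ≤ n * D := by exact_mod_cast length_le hG
      exact a1.trans (mul_le_mul_of_nonneg_right a2 hL0)
    have hkle : (k : ℝ) ≤ n * D * L + 1 := by
      have a1 := hlenb z hz G hG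
      have a2 := abs_lt.1 hu1
      linarith
    have hk0le : (k0 : ℝ) ≤ n * D * L + 1 := by
      have a1 := hlenb z0 hz0 G0 hG0
      have a2 := abs_lt.1 hu2
      linarith
    have hlocb : ∀ z ∈ V, ∑ o ∈ I, loc Y (mix I z x) o (ν o) ≤ n * D * L := by
      intro z hz
      calc ∑ o ∈ I, loc Y (mix I z x) o (ν o) ≤ ∑ _o ∈ I, (D : ℝ) * L := by
            refine Finset.sum_le_sum fun o ho => ?_
            have a1 := sum_le (fun t => √(dd Y (mix I z x) o t : ℝ)) L (ν o)
              fun t => hL _ (hup z hz) o t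
            have a2 : ((ν o).length : ℝ) ≤ D := by exact_mod_cast hνD o ho
            exact a1.trans (mul_le_mul_of_nonneg_right a2 hL0)
        _ = I.card * (D * L) := by simp
        _ ≤ n * (D * L) := by
            have a4 : (I.card : ℝ) ≤ n := by
              have := Finset.card_le_univ I
              rw [Fintype.card_fin] at this
              exact_mod_cast this
            exact mul_le_mul_of_nonneg_right a4 (by positivity)
        _ = n * D * L := by ring
    rw [e1] at hl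
    rw [e2, ← hR] at hl0
    obtain ⟨a, ha⟩ : ∃ a : JJ I ν → ℕ, a = fun j => j.elim ((k0 + 1) ^ 2) fun p => dd Y (mix I z x) p.1.1 (ν p.1.1)[p.2.1] :=
      ⟨_, rfl⟩
    obtain ⟨a', ha'⟩ : ∃ a' : JJ I ν → ℕ, a' = fun j => j.elim ((k + 1) ^ 2) fun p => dd Y (mix I z0 x) p.1.1 (ν p.1.1)[p.2.1] :=
      ⟨_, rfl⟩
    have hs1 : ∑ j, √(a j : ℝ) = (∑ o ∈ I, loc Y (mix I z x) o (ν o)) + (k0 + 1) := by
      rw [ha]
      exact loc_sumI _ _ _ _ _
    have hs2 : ∑ j, √(a' j : ℝ) = (∑ o ∈ I, loc Y (mix I z0 x) o (ν o)) + (k + 1) := by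
      rw [ha']
      exact loc_sumI _ _ _ _ _
    have heq : ∑ j, √(a j : ℝ) = ∑ j, √(a' j : ℝ) := by
      by_contra hne
      have hbR : (8 : ℝ) * ((n + 1) * (D + 1) * (L + 1)) ≤ 2 ^ b := by exact_mod_cast hb
      have hsum : ∑ j, √(a j : ℝ) + ∑ j, √(a' j : ℝ) ≤ 2 ^ b := by
        rw [hs1, hs2]
        have a1 := hlocb z hz
        have a2 := hlocb z0 hz0
        have a3 : (n : ℝ) * D * L + 1 ≤ (n + 1) * (D + 1) * (L + 1) := by
          have b1 : (0 : ℝ) ≤ n := Nat.cast_nonneg _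
          have b2 : (0 : ℝ) ≤ D := Nat.cast_nonneg _
          have b3 : (0 : ℝ) ≤ n * D := by positivity
          have b4 : (0 : ℝ) ≤ n * L := by positivity
          have b5 : (0 : ℝ) ≤ D * L := by positivity
          nlinarith
        linarith
      have h2 := cls_sep hne hB1 hsum
      have h3 : ∑ j, √(a j : ℝ) - ∑ j, √(a' j : ℝ) =
          ((∑ o ∈ I, loc Y (mix I z x) o (ν o)) + len Y x (awayI I G) - k) -
          ((∑ o ∈ I, loc Y (mix I z0 x) o (ν o)) + len Y x (awayI I G) - k0) := by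
        rw [hs1, hs2]
        ring
      rw [h3] at h2
      set u := (∑ o ∈ I, loc Y (mix I z x) o (ν o)) + len Y x (awayI I G) - k with hu
      set u0 := (∑ o ∈ I, loc Y (mix I z0 x) o (ν o)) + len Y x (awayI I G) - k0 with hu0
      have h4 : |u - u0| ≤ |u| + |u0| := abs_sub _ _
      have h5 : |u - u0| * (2 * (2 ^ b) ^ E) < 2 := by
        have := mul_le_mul_of_nonneg_right h4 hB0.le
        linarith
      have h6 : ((2 : ℝ) ^ b) ^ (2 ^ (2 * Fintype.card (JJ I ν)) - 1) ≤ (2 ^ b) ^ E := by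
        refine pow_le_pow_right₀ hB1 ((Nat.sub_le _ _).trans ?_)
        rw [pow_mul, hE]
        exact Nat.pow_le_pow_right (by norm_num) hcard
      have h7 := mul_le_mul_of_nonneg_left h6 (abs_nonneg (u - u0))
      linarith
    -- the private class
    obtain ⟨d, hd, hdp⟩ := hpr o ho
    have hd2 := hd
    rw [mem_clv, hν o ho] at hd2
    obtain ⟨hd1, hd0, t, ht, htd⟩ := hd2
    obtain ⟨i1, hi1, hit⟩ := List.getElem_of_mem ht
    have hai : a (some ⟨⟨o, ho⟩, ⟨i1, hi1⟩⟩) = dd Y (mix I z x) o t := by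
      rw [ha]
      show dd Y (mix I z x) o (ν o)[i1] = _
      rw [hit]
    have hpos : 1 ≤ a (some ⟨⟨o, ho⟩, ⟨i1, hi1⟩⟩) := by
      rw [hai]
      rcases Nat.eq_zero_or_pos (dd Y (mix I z x) o t) with h0 | h0
      · rw [h0] at htd
        exact absurd htd.symm hd0
      · exact h0
    obtain ⟨j1, hj⟩ := Pool.Agent.H84.OB.cls_eq0 heq (some ⟨⟨o, ho⟩, ⟨i1, hi1⟩⟩) hpos
    rw [hai, htd, ha'] at hj
    have hpart := cls_part heq d
    rw [Fintype.sum_option, Fintype.sum_option, Fintype.sum_sigma, ha, ha'] at hpart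
    simp only [Option.elim_none, Option.elim_some] at hpart hj
    rw [sf_sq, sf_sq, if_neg (Ne.symm hd1), if_neg (Ne.symm hd1), zero_add, zero_add] at hpart
    rw [Finset.sum_eq_single_of_mem (⟨o, ho⟩ : {o // o ∈ I}) (mem_univ _) (by
      intro o' _ hne
      refine Finset.sum_eq_zero fun i _ => ?_
      rw [if_neg]
      intro hsd
      have hne' : o'.1 ≠ o := fun h => hne (Subtype.ext h)
      refine hdp o'.1 o'.2 hne' ?_
      rw [mem_clv, hν o'.1 o'.2]
      exact ⟨hd1, hd0, _, List.getElem_mem _, hsd⟩)] at hpart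
    cases j1 with
    | none =>
      exfalso
      simp only [Option.elim_none] at hj
      rw [sf_sq] at hj
      exact hd1 hj
    | some p =>
      simp only [Option.elim_some] at hj
      refine ⟨univ.filter (fun i : Fin (ν o).length => sf (dd Y (mix I z x) o (ν o)[i.1]) = d), p, ?_, ?_⟩
      · refine ⟨⟨i1, hi1⟩, mem_filter.2 ⟨mem_univ _, ?_⟩, ?_⟩
        · show sf (dd Y (mix I z x) o (ν o)[i1]) = d
          rw [hit]
          exact htd
        · show Y o (ν o)[i1] ≠ 0
          rw [hit]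
          intro hY0
          unfold dd at htd
          rw [hY0, add_zero] at htd
          rcases Nat.eq_zero_or_pos ((mix I z x o : ℤ) - mix I z x t).natAbs with h | h
          · rw [h] at htd
            exact hd0 htd.symm
          · obtain ⟨r, hr⟩ := Nat.exists_eq_succ_of_ne_zero h.ne'
            rw [hr] at htd
            exact hd1 (htd.symm.trans (sf_sq r))
      · rw [Finset.sum_filter, hcst]
        simp only []
        rw [hA0]
        simp only []
        rw [← hj, ← hpart]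
        refine Finset.sum_congr rfl fun i _ => ?_
        have hnI : (ν o)[i.1] ∉ I := hνI o ho _ (List.getElem_mem _)
        have hdr : radS (z o) (x (ν o)[i]) (Y o (ν o)[i]) = dd Y (mix I z x) o (ν o)[i.1] := by
          unfold dd radS mix
          rw [if_pos ho, if_neg hnI]
          rfl
        rw [hdr]
  obtain ⟨A', hA'⟩ : ∃ A' : Fin n → Finset ℕ, A' = fun o => (A o).filter fun v =>
    ∃ (S : Finset (Fin (ν o).length)) (p : (o : {o // o ∈ I}) × Fin (ν o.1).length),
      (∃ i ∈ S, Y o (ν o)[i] ≠ 0) ∧ ∑ i ∈ S, √(radS v (x (ν o)[i]) (Y o (ν o)[i]) : ℝ) = cst p := ⟨_, rfl⟩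
  have hAc : ∀ o ∈ I, ∑ v ∈ A' o, w o v ≤ 2 ^ (D + 1) * (D * I.card) * θ := by
    intro o ho
    have hsub : A' o ⊆ (univ : Finset (Finset (Fin (ν o).length))).biUnion fun S =>
        (univ : Finset ((o : {o // o ∈ I}) × Fin (ν o.1).length)).biUnion fun p => (A o).filter fun v =>
          (∃ i ∈ S, Y o (ν o)[i] ≠ 0) ∧ ∑ i ∈ S, √(radS v (x (ν o)[i]) (Y o (ν o)[i]) : ℝ) = cst p := by
      intro v hv
      rw [hA'] at hv
      obtain ⟨hv1, S, p, h2⟩ := mem_filter.1 hv
      rw [mem_biUnion]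
      refine ⟨S, mem_univ _, ?_⟩
      rw [mem_biUnion]
      exact ⟨p, mem_univ _, mem_filter.2 ⟨hv1, h2⟩⟩
    have htwo : ∀ (S : Finset (Fin (ν o).length)) (p : (o : {o // o ∈ I}) × Fin (ν o.1).length),
        ((A o).filter fun v => (∃ i ∈ S, Y o (ν o)[i] ≠ 0) ∧
          ∑ i ∈ S, √(radS v (x (ν o)[i]) (Y o (ν o)[i]) : ℝ) = cst p).card ≤ 2 := by
      intro S p
      by_cases hS : ∃ i ∈ S, Y o (ν o)[i] ≠ 0
      · exact two_vals S (fun i => x (ν o)[i]) (fun i => Y o (ν o)[i]) hS (cst p) _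
          fun v hv => (mem_filter.1 hv).2.2
      · rw [Finset.filter_false_of_mem fun v _ h => hS h.1, Finset.card_empty]
        norm_num
    have hsig : Fintype.card ((o : {o // o ∈ I}) × Fin (ν o.1).length) ≤ D * I.card := by
      rw [Fintype.card_option] at hcard
      omega
    have c1 : (A' o).card ≤ 2 ^ (D + 1) * (D * I.card) := by
      calc (A' o).card ≤ ∑ S : Finset (Fin (ν o).length), ∑ p : (o : {o // o ∈ I}) × Fin (ν o.1).length,
            ((A o).filter fun v => (∃ i ∈ S, Y o (ν o)[i] ≠ 0) ∧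
              ∑ i ∈ S, √(radS v (x (ν o)[i]) (Y o (ν o)[i]) : ℝ) = cst p).card :=
            (Finset.card_le_card hsub).trans (Finset.card_biUnion_le.trans
              (Finset.sum_le_sum fun S _ => Finset.card_biUnion_le))
        _ ≤ ∑ _S : Finset (Fin (ν o).length), ∑ _p : (o : {o // o ∈ I}) × Fin (ν o.1).length, 2 :=
            Finset.sum_le_sum fun S _ => Finset.sum_le_sum fun p _ => htwo S p
        _ = 2 ^ (ν o).length * (Fintype.card ((o : {o // o ∈ I}) × Fin (ν o.1).length) * 2) := by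
            rw [Finset.sum_const, Finset.sum_const, smul_eq_mul, smul_eq_mul, Finset.card_univ, Finset.card_univ,
              Fintype.card_finset, Fintype.card_fin]
        _ ≤ 2 ^ D * ((D * I.card) * 2) := Nat.mul_le_mul (Nat.pow_le_pow_right (by norm_num) (hνD o ho))
            (Nat.mul_le_mul_right _ hsig)
        _ = 2 ^ (D + 1) * (D * I.card) := by rw [pow_succ]; ring
    have c2 : ∑ v ∈ A' o, w o v ≤ (A' o).card • θ := Finset.sum_le_card_nsmul _ _ _ fun v hv => by
      rw [hA'] at hv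
      exact hwθ o ho v (mem_filter.1 hv).1
    rw [nsmul_eq_mul] at c2
    exact c2.trans (mul_le_mul_of_nonneg_right (by exact_mod_cast c1) hθ)
  have hVsub : V ⊆ Fintype.piFinset fun i => if i ∈ I then A' i else A i := by
    intro z hz
    rw [Fintype.mem_piFinset]
    intro i
    have hzi := Fintype.mem_piFinset.1 (hV hz) i
    split_ifs with hi
    · rw [hA']
      exact mem_filter.2 ⟨hzi, key z hz i hi⟩
    · exact hzi
  have hsubA : ∀ i, (if i ∈ I then A' i else A i) ⊆ A i := by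
    intro i
    split_ifs
    · rw [hA']
      exact Finset.filter_subset _ _
    · exact fun _ h => h
  calc ∑ z ∈ V, ∏ i, w i (z i) ≤ ∑ z ∈ Fintype.piFinset fun i => if i ∈ I then A' i else A i, ∏ i, w i (z i) := by
        refine Finset.sum_le_sum_of_subset_of_nonneg hVsub fun z hz _ => Finset.prod_nonneg fun i _ => ?_
        exact hw0 i _ (hsubA i (Fintype.mem_piFinset.1 hz i))
    _ = ∏ i, ∑ v ∈ (if i ∈ I then A' i else A i), w i v := (Finset.prod_univ_sum _ _).symm
    _ ≤ ∏ i, (if i ∈ I then (2 : ℝ) ^ (D + 1) * (D * I.card) * θ else 1) := by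
        refine Finset.prod_le_prod (fun i _ => Finset.sum_nonneg fun v hv => hw0 i v (hsubA i hv)) fun i _ => ?_
        by_cases hi : i ∈ I
        · rw [if_pos hi, if_pos hi]
          exact hAc i hi
        · rw [if_neg hi, if_neg hi, hw1]
    _ = (2 ^ (D + 1) * (D * I.card) * θ) ^ I.card := by
        rw [Finset.prod_ite_mem, Finset.univ_inter, Finset.prod_const]

end Pool.Agent.H84.KE
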